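import Pool.Agent.H815.TW.Ray

/-!
# Maps of cones given by coarse sectors in a group
-/

set_option autoImplicit false
set_option linter.unusedSectionVars false

namespace Pool.Agent.H815.CE

open Topology Pool.Agent.H815.TW

variable {Γ : Type} [Group Γ] {N : ℕ}

/-- A family of elements of the group, indexed by the lattice points of the cone over the complex `L`: the quotients of the
elements of neighbouring lattice points are in a finite set, and over disjoint simplices the elements diverge. -/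
structure Sec (L : Finset (Finset (Fin N))) (P : (Fin N → ℕ) → Γ) : Prop where
  near : ∃ E : Set Γ, E.Finite ∧ ∀ σ ∈ L, ∀ k k' : Fin N → ℕ, (∀ v ∉ σ, k v = 0) → (∀ v ∉ σ, k' v = 0) →
    (∀ v, k' v = k v ∨ k' v = k v + 1) → (P k)⁻¹ * P k' ∈ E
  div : ∀ F : Set Γ, F.Finite → ∃ R : ℕ, ∀ σ ∈ L, ∀ τ ∈ L, Disjoint σ τ → ∀ k k' : Fin N → ℕ,
    (∀ v ∉ σ, k v = 0) → (∀ v ∉ τ, k' v = 0) → (P k)⁻¹ * P k' ∈ F → ∀ v, k v ≤ R ∧ k' v ≤ R

variable {M : Type} [TopologicalSpace M] [MulAction Γ M] [ContinuousConstSMul Γ M] (K : Con M)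

/-- the map of the cone -/
noncomputable def HS (P : (Fin N → ℕ) → Γ) (R : ℕ) (x : Fin N → ℝ) : M :=
  fold K ((lat N R).map fun k => (P fun v => (k v : ℕ), lam (fun v => (k v : ℕ)) x))

theorem HS_wt (P : (Fin N → ℕ) → Γ) (R : ℕ) {x : Fin N → ℝ} (hx : ∀ v, 0 ≤ x v) (hR : ∀ v, x v ≤ R) :
    0 < wt ((lat N R).map fun k => (P fun v => (k v : ℕ), lam (fun v => (k v : ℕ)) x)) := by
  have h1 : wt ((lat N R).map fun k => (P fun v => (k v : ℕ), lam (fun v => (k v : ℕ)) x)) =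
      ((lat N R).map fun k => lam (fun v => (k v : ℕ)) x).sum := by
    unfold wt
    rw [List.map_map]
    rfl
  rw [h1, lat_sum]
  exact lam_sum R hx hR

theorem HS_cont (P : (Fin N → ℕ) → Γ) (R : ℕ) {x : Fin N → ℝ} (hx : ∀ v, 0 ≤ x v) (hR : ∀ v, x v ≤ R) :
    ContinuousAt (HS K P R) x := by
  have h1 := fold_cont K ((lat N R).map fun k => (P fun v => (k v : ℕ), lam (fun v => (k v : ℕ)))) (by
    intro p hp
    obtain ⟨k, _, rfl⟩ := List.mem_map.1 hp
    exact lam_cont _) (by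
    intro p hp y
    obtain ⟨k, _, rfl⟩ := List.mem_map.1 hp
    exact lam_nonneg _ y) x (by
    rw [List.map_map]
    exact HS_wt P R hx hR)
  simp only [List.map_map] at h1
  exact h1

/-- the values of the map are near the orbit -/
theorem HS_near {L : Finset (Finset (Fin N))} {P : (Fin N → ℕ) → Γ} (hP2 : Sec L P) :
    ∃ C : Set M, IsCompact C ∧ ∀ (R : ℕ), ∀ σ ∈ L, ∀ x : Fin N → ℝ, (∀ v, 0 ≤ x v) → (∀ v ∉ σ, x v = 0) →
      (∀ v, x v ≤ R) → ∃ m ∈ C, HS K P R x = P (fun v => ⌊x v⌋₊) • m := by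
  classical
  obtain ⟨E, hE, hE2⟩ := hP2.near
  refine ⟨⋃ l ∈ {l : List Γ | l.length ≤ Fintype.card (Fin N → Bool) ∧ ∀ g ∈ l, g ∈ E}, box K l,
    (lists_finite E hE _).isCompact_biUnion fun l _ => box_compact K l, ?_⟩
  intro R σ hσ x hx hxσ hR
  obtain ⟨k0, hk0⟩ : ∃ k0 : Fin N → ℕ, k0 = fun v => ⌊x v⌋₊ := ⟨_, rfl⟩
  rw [← hk0]
  obtain ⟨l, hl⟩ : ∃ l : List (Γ × ℝ), l = (lat N R).map fun k => (P fun v => (k v : ℕ), lam (fun v => (k v : ℕ)) x) :=
    ⟨_, rfl⟩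
  have hln : ∀ p ∈ l, 0 ≤ p.2 := by
    intro p hp
    rw [hl] at hp
    obtain ⟨k, _, rfl⟩ := List.mem_map.1 hp
    exact lam_nonneg _ x
  have hlw : 0 < wt l := by
    rw [hl]
    exact HS_wt P R hx hR
  obtain ⟨l1, hl1⟩ : ∃ l1 : List (Γ × ℝ), l1 = l.filter fun p => decide (0 < p.2) := ⟨_, rfl⟩
  have e1 : HS K P R x = fold K l1 := by
    rw [hl1, fold_filter K hln, hl]
    rfl
  have hw1 : 0 < wt l1 := by
    rw [hl1, wt_filter hln]
    exact hlw
  have hn1 : ∀ p ∈ l1, 0 ≤ p.2 := by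
    intro p hp
    rw [hl1, List.mem_filter] at hp
    exact hln p hp.1
  obtain ⟨l2, hl2⟩ : ∃ l2 : List (Γ × ℝ), l2 = l1.map fun p => ((P k0)⁻¹ * p.1, p.2) := ⟨_, rfl⟩
  have hn2 : ∀ p ∈ l2, 0 ≤ p.2 := by
    intro p hp
    rw [hl2] at hp
    obtain ⟨q, hq, rfl⟩ := List.mem_map.1 hp
    exact hn1 q hq
  have hw2 : 0 < wt l2 := by
    have : wt l2 = wt l1 := by
      rw [hl2]
      unfold wt
      rw [List.map_map]
      rfl
    rw [this]
    exact hw1
  have e2 : l1 = l2.map fun p => (P k0 * p.1, p.2) := by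
    rw [hl2, List.map_map]
    have : ((fun p : Γ × ℝ => (P k0 * p.1, p.2)) ∘ fun p : Γ × ℝ => ((P k0)⁻¹ * p.1, p.2)) = id := by
      funext p
      simp
    rw [this, List.map_id]
  refine ⟨fold K l2, ?_, ?_⟩
  · refine Set.mem_biUnion (x := l2.map Prod.fst) ⟨?_, ?_⟩ (fold_mem K hn2)
    · rw [List.length_map, hl2, List.length_map, hl1, hl, List.filter_map, List.length_map]
      have hnd : (List.filter ((fun p : Γ × ℝ => decide (0 < p.2)) ∘ fun k : Fin N → Fin (R + 2) =>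
          (P fun v => (k v : ℕ), lam (fun v => (k v : ℕ)) x)) (lat N R)).Nodup :=
        (Finset.nodup_toList _).filter _
      rw [← List.toFinset_card_of_nodup hnd]
      refine Finset.card_le_card_of_injOn (t := Finset.univ) (fun k v => decide ((k v : ℕ) = k0 v)) (fun _ _ => Finset.mem_coe.2 (Finset.mem_univ _)) ?_
      intro k hk k' hk' hkk
      rw [Finset.mem_coe, List.mem_toFinset, List.mem_filter] at hk hk'
      have h1 : 0 < lam (fun v => (k v : ℕ)) x := by simpa using hk.2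
      have h2 : 0 < lam (fun v => (k' v : ℕ)) x := by simpa using hk'.2
      funext v
      have h3 := near_floor (hx v) (lam_pos h1 v)
      have h4 := near_floor (hx v) (lam_pos h2 v)
      have h5 : decide ((k v : ℕ) = k0 v) = decide ((k' v : ℕ) = k0 v) := congrFun hkk v
      have h6 : (k v : ℕ) = k0 v ↔ (k' v : ℕ) = k0 v := by simpa using h5
      have h7 : k0 v = ⌊x v⌋₊ := by rw [hk0]
      apply Fin.ext
      rcases h3 with h3 | h3 <;> rcases h4 with h4 | h4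
      · rw [h3, h4]
      · have := h6.1 (by rw [h3, h7]); omega
      · have := h6.2 (by rw [h4, h7]); omega
      · rw [h3, h4]
    · intro g hg
      obtain ⟨p, hp, rfl⟩ := List.mem_map.1 hg
      rw [hl2] at hp
      obtain ⟨q, hq, rfl⟩ := List.mem_map.1 hp
      rw [hl1, List.mem_filter, hl] at hq
      obtain ⟨k, _, rfl⟩ := List.mem_map.1 hq.1
      have h1 : 0 < lam (fun v => (k v : ℕ)) x := by simpa using hq.2
      refine hE2 σ hσ k0 (fun v => (k v : ℕ)) (fun v hv => by rw [hk0]; simp [hxσ v hv]) (fun v hv => ?_) fun v => ?_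
      · have h10 := lam_pos h1 v
        rw [hxσ v hv, zero_sub, abs_neg, abs_of_nonneg (Nat.cast_nonneg _)] at h10
        have h11 : (k v : ℕ) < 1 := by exact_mod_cast h10
        exact Nat.lt_one_iff.1 h11
      · have h7 : k0 v = ⌊x v⌋₊ := by rw [hk0]
        rcases near_floor (hx v) (lam_pos h1 v) with h3 | h3
        · exact Or.inl (by rw [h7]; exact h3)
        · exact Or.inr (by rw [h7]; exact h3)
  · rw [e1, e2, fold_smul K _ hn2 hw2]

/-- the images of far points of the cones over disjoint simplices are different -/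
theorem HS_sep (hP : Proper Γ M) {L : Finset (Finset (Fin N))} {P : (Fin N → ℕ) → Γ} (hP2 : Sec L P) :
    ∃ R0 : ℕ, ∀ (R : ℕ), ∀ σ ∈ L, ∀ τ ∈ L, Disjoint σ τ → ∀ x y : Fin N → ℝ, (∀ v, 0 ≤ x v) → (∀ v ∉ σ, x v = 0) →
      (∀ v, x v ≤ R) → (∀ v, 0 ≤ y v) → (∀ v ∉ τ, y v = 0) → (∀ v, y v ≤ R) → HS K P R x = HS K P R y →
      ∀ v, x v < R0 ∧ y v < R0 := by
  obtain ⟨C, hC, hC2⟩ := HS_near K hP2
  obtain ⟨R0, hR0⟩ := hP2.div _ (hP C hC)
  refine ⟨R0 + 1, ?_⟩
  intro R σ hσ τ hτ hd x y hx hxσ hxR hy hyτ hyR h v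
  obtain ⟨m, hm, h1⟩ := hC2 R σ hσ x hx hxσ hxR
  obtain ⟨m', hm', h2⟩ := hC2 R τ hτ y hy hyτ hyR
  rw [h1, h2] at h
  have h3 := hR0 σ hσ τ hτ hd (fun v => ⌊x v⌋₊) (fun v => ⌊y v⌋₊) (fun v hv => by simp [hxσ v hv])
    (fun v hv => by simp [hyτ v hv]) ⟨m', hm', by rw [mul_smul, ← h, inv_smul_smul]; exact hm⟩ v
  have h4 := Nat.lt_floor_add_one (x v)
  have h5 := Nat.lt_floor_add_one (y v)
  have h6 : ((⌊x v⌋₊ : ℕ) : ℝ) ≤ R0 := by exact_mod_cast h3.1
  have h7 : ((⌊y v⌋₊ : ℕ) : ℝ) ≤ R0 := by exact_mod_cast h3.2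
  push_cast
  constructor <;> linarith

end Pool.Agent.H815.CE
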