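import Pool.Agent.H815.TW.Odd2
import Pool.Agent.H815.CE.Ray

/-!
# Proper actions on contractible spaces and odd maps of deleted joins: coarse sectors
-/

set_option autoImplicit false
set_option linter.unusedSectionVars false

namespace Pool.Agent.H815.CE

open Finset Pool.Agent.W555.KS Pool.Agent.Y131.KS Topology Pool.Agent.H815.TW

variable {Γ : Type} [Group Γ] {N : ℕ}
variable {M : Type} [TopologicalSpace M] [MulAction Γ M] [ContinuousConstSMul Γ M]

/-- The odd map. -/
theorem odd_of_sec [ContractibleSpace M] (hP : Proper Γ M) {L : Finset (Finset (Fin N))} (hL : IsCx L)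
    {P : (Fin N → ℕ) → Γ} (hr : Sec L P) {d : ℕ} (ι : M × M → (Fin d → ℝ)) (hι : Continuous ι)
    (hι2 : Function.Injective ι) : OddMap (jn L) d := by
  obtain ⟨K⟩ := exists_con M
  obtain ⟨R0, hR0⟩ := HS_sep K hP hr
  obtain ⟨R, hRdef⟩ : ∃ R : ℕ, R = (N + N) * R0 + 1 := ⟨_, rfl⟩
  have hRn : (0 : ℝ) ≤ (R : ℝ) := Nat.cast_nonneg _
  obtain ⟨f, hf⟩ : ∃ f : (Fin (N + N) → ℝ) → (Fin d → ℝ),
    f = fun x => ι (HS K P R (pL R x), HS K P R (pR R x)) - ι (HS K P R (pL R (-x)), HS K P R (pR R (-x))) := ⟨_, rfl⟩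
  refine ⟨f, ?_, fun x hx => ⟨?_, ?_⟩⟩
  · have h1 : ∀ x ∈ dJoin (jn L), ContinuousAt (fun x => ι (HS K P R (pL R x), HS K P R (pR R x))) x := by
      intro x hx
      refine ContinuousAt.comp (g := ι) hι.continuousAt (ContinuousAt.prodMk ?_ ?_)
      · exact ContinuousAt.comp (g := HS K P R) (HS_cont K P R (pL_nonneg hRn x) (pL_le hRn hx.1)) (pL_cont _).continuousAt
      · exact ContinuousAt.comp (g := HS K P R) (HS_cont K P R (pR_nonneg hRn x) (pR_le hRn hx.1)) (pR_cont _).continuousAt
    intro x hx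
    rw [hf]
    refine ContinuousAt.continuousWithinAt ((h1 x hx).sub ?_)
    have hnx : -x ∈ dJoin (jn L) := by
      rw [dJoin_eq (jn_cx hL)] at hx ⊢
      exact X_neg (jn_cx hL) hx
    exact ContinuousAt.comp (g := fun x => ι (HS K P R (pL R x), HS K P R (pR R x))) (h1 (-x) hnx)
      continuous_neg.continuousAt
  · rw [hf]
    simp only [neg_neg]
    abel
  · intro h0
    rw [hf] at h0
    have h1 := hι2 (sub_eq_zero.1 h0)
    rw [Prod.mk.injEq] at h1
    obtain ⟨hx1, hx2, hx3⟩ := hx
    rw [mem_jn] at hx2 hx3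
    have hn1 := neg_one hx1
    have hdis : ∀ (σ τ : Finset (Fin (N + N))), Disjoint σ τ → Disjoint (lfS σ) (lfS τ) ∧ Disjoint (rtS σ) (rtS τ) := by
      intro σ τ hd
      rw [disjoint_left] at hd
      constructor <;> rw [disjoint_left] <;> intro i hi hi'
      · exact hd (mem_lfS.1 hi) (mem_lfS.1 hi')
      · exact hd (mem_rtS.1 hi) (mem_rtS.1 hi')
    have hd0 : Disjoint (univ.filter fun i => 0 < x i) (univ.filter fun i => x i < 0) := by
      rw [disjoint_left]
      intro i hi hi'
      rw [mem_filter] at hi hi'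
      exact lt_asymm hi.2 hi'.2
    have a1 := hR0 R _ hx2.1 _ hx3.1 (hdis _ _ hd0).1 (pL R x) (pL R (-x)) (pL_nonneg hRn x) (by
        intro v hv
        rw [mem_lfS, mem_filter, not_and] at hv
        unfold pL
        rw [max_eq_right (not_lt.1 (hv (mem_univ _))), mul_zero]) (pL_le hRn hx1) (pL_nonneg hRn _) (by
        intro v hv
        rw [mem_lfS, mem_filter, not_and] at hv
        unfold pL
        have h2 := not_lt.1 (hv (mem_univ _))
        rw [Pi.neg_apply, max_eq_right (by linarith), mul_zero]) (pL_le hRn hn1) h1.1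
    have a2 := hR0 R _ hx2.2 _ hx3.2 (hdis _ _ hd0).2 (pR R x) (pR R (-x)) (pR_nonneg hRn x) (by
        intro v hv
        rw [mem_rtS, mem_filter, not_and] at hv
        unfold pR
        rw [max_eq_right (not_lt.1 (hv (mem_univ _))), mul_zero]) (pR_le hRn hx1) (pR_nonneg hRn _) (by
        intro v hv
        rw [mem_rtS, mem_filter, not_and] at hv
        unfold pR
        have h2 := not_lt.1 (hv (mem_univ _))
        rw [Pi.neg_apply, max_eq_right (by linarith), mul_zero]) (pR_le hRn hn1) h1.2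
    have key : ∀ a : ℝ, (R : ℝ) * max a 0 < R0 → (R : ℝ) * max (-a) 0 < R0 → (R : ℝ) * |a| ≤ R0 := by
      intro a h2 h3
      rcases le_total 0 a with h4 | h4
      · rw [abs_of_nonneg h4]
        rw [max_eq_left h4] at h2
        exact h2.le
      · rw [abs_of_nonpos h4]
        rw [max_eq_left (by linarith)] at h3
        exact h3.le
    have h5 : (R : ℝ) ≤ (N + N) * R0 := by
      calc (R : ℝ) = R * ∑ i, |x i| := by rw [hx1, mul_one]
        _ = ∑ i, (R : ℝ) * |x i| := by rw [mul_sum]
        _ ≤ ∑ _i : Fin (N + N), (R0 : ℝ) := by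
          refine sum_le_sum fun i _ => ?_
          refine Fin.addCases (fun j => ?_) (fun j => ?_) i
          · exact key _ (a1 j).1 (a1 j).2
          · exact key _ (a2 j).1 (a2 j).2
        _ = (N + N) * R0 := by
          rw [sum_const, card_univ, Fintype.card_fin, nsmul_eq_mul]
          push_cast
          ring
    rw [hRdef] at h5
    push_cast at h5
    linarith

/-- the obstruction vanishes -/
theorem vk2_of_sec [ContractibleSpace M] (hP : Proper Γ M) {L : Finset (Finset (Fin N))} (hL : IsCx L)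
    {P : (Fin N → ℕ) → Γ} (hr : Sec L P) {d : ℕ} (ι : M × M → (Fin d → ℝ)) (hι : Continuous ι)
    (hι2 : Function.Injective ι) : VK2 (jn L) (d + 1) :=
  vk2_of_odd (jn_cx hL) (odd_of_sec hP hL hr ι hι hι2)

end Pool.Agent.H815.CE
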