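import Pool.Agent.H815.TW.Sub
import Pool.Agent.H815.CE.Odd

/-!
# Coarse embeddings of groups
-/

set_option autoImplicit false
set_option linter.unusedSectionVars false

namespace Pool.Agent.H815.CE

open Pool.Agent.H815.TW Pool.Agent.W555.KS Pool.Agent.Y131.KS

/-- There is a coarse embedding `ψ` of the group `A` into the group `Γ`: elements of `A` with a quotient in a finite set
have images with a quotient in a finite set, and conversely. (For countable groups this is a coarse embedding for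
proper left invariant metrics. For instance, `Γ` contains a copy of `A`, or `A` and `Γ` are finitely generated and
quasi-isometric.) -/
def CoarseEmb (A Γ : Type) [Group A] [Group Γ] : Prop :=
  ∃ ψ : A → Γ, (∀ S : Set A, S.Finite → ∃ E : Set Γ, E.Finite ∧ ∀ a b, a⁻¹ * b ∈ S → (ψ a)⁻¹ * ψ b ∈ E) ∧
    ∀ F : Set Γ, F.Finite → ∃ S : Set A, S.Finite ∧ ∀ a b, (ψ a)⁻¹ * ψ b ∈ F → a⁻¹ * b ∈ S

/-- The group `A` has a coarse embedding into a group `Γ` which acts properly, by homeomorphisms, on a contractible space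
`M` with a continuous injective map from `M × M` to the euclidean space of dimension `2 n`. -/
def CActs (n : ℕ) (A : Type) [Group A] : Prop := ∃ (Γ : Type) (_ : Group Γ), Acts n Γ ∧ CoarseEmb A Γ

theorem CoarseEmb.of_hom {A A' Γ : Type} [Group A] [Group A'] [Group Γ] (h : CoarseEmb A Γ) (φ : A' →* A)
    (hφ : Function.Injective φ) : CoarseEmb A' Γ := by
  obtain ⟨ψ, h1, h2⟩ := h
  refine ⟨ψ ∘ φ, fun S hS => ?_, fun F hF => ?_⟩
  · obtain ⟨E, hE, hE2⟩ := h1 (φ '' S) (hS.image _)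
    exact ⟨E, hE, fun a b hab => hE2 _ _ ⟨_, hab, by rw [map_mul, map_inv]⟩⟩
  · obtain ⟨S, hS, hS2⟩ := h2 F hF
    refine ⟨φ ⁻¹' S, hS.preimage hφ.injOn, fun a b hab => ?_⟩
    have h3 := hS2 _ _ hab
    show φ (a⁻¹ * b) ∈ S
    rw [map_mul, map_inv]
    exact h3

theorem CActs.of_hom {n : ℕ} {A A' : Type} [Group A] [Group A'] (φ : A' →* A) (hφ : Function.Injective φ)
    (h : CActs n A) : CActs n A' := by
  obtain ⟨Γ, _, h1, h2⟩ := h
  exact ⟨Γ, _, h1, h2.of_hom φ hφ⟩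

theorem coarseEmb_of_hom {A Γ : Type} [Group A] [Group Γ] (φ : A →* Γ) (hφ : Function.Injective φ) : CoarseEmb A Γ := by
  have h : CoarseEmb Γ Γ := ⟨id, fun S hS => ⟨S, hS, fun _ _ h => h⟩, fun F hF => ⟨F, hF, fun _ _ h => h⟩⟩
  exact h.of_hom φ hφ

/-- Quasi-isometric embeddings: `lA` and `lG` are length functions with finite balls, for instance the word lengths for
finite generating sets. -/
theorem coarseEmb_of_qi {A Γ : Type} [Group A] [Group Γ] (lA : A → ℕ) (lG : Γ → ℕ)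
    (hA : ∀ n, {a | lA a ≤ n}.Finite) (hG : ∀ n, {g | lG g ≤ n}.Finite) (ψ : A → Γ) (K C : ℕ)
    (h1 : ∀ a b, lG ((ψ a)⁻¹ * ψ b) ≤ K * lA (a⁻¹ * b) + C)
    (h2 : ∀ a b, lA (a⁻¹ * b) ≤ K * lG ((ψ a)⁻¹ * ψ b) + C) : CoarseEmb A Γ := by
  refine ⟨ψ, fun S hS => ?_, fun F hF => ?_⟩
  · obtain ⟨m, hm⟩ := (hS.image lA).bddAbove
    refine ⟨{g | lG g ≤ K * m + C}, hG _, fun a b hab => ?_⟩
    have h3 : lA (a⁻¹ * b) ≤ m := hm ⟨_, hab, rfl⟩
    exact (h1 a b).trans (Nat.add_le_add_right (Nat.mul_le_mul_left K h3) C)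
  · obtain ⟨m, hm⟩ := (hF.image lG).bddAbove
    refine ⟨{a | lA a ≤ K * m + C}, hA _, fun a b hab => ?_⟩
    have h3 : lG ((ψ a)⁻¹ * ψ b) ≤ m := hm ⟨_, hab, rfl⟩
    exact (h2 a b).trans (Nat.add_le_add_right (Nat.mul_le_mul_left K h3) C)

variable {N : ℕ}

theorem rays_near {A : Type} [Group A] {L : Finset (Finset (Fin N))} {r : Fin N → ℕ → A} (hr : Rays L r) :
    ∃ E : Set A, E.Finite ∧ ∀ σ ∈ L, ∀ k k' : Fin N → ℕ, (∀ v ∉ σ, k v = 0) → (∀ v ∉ σ, k' v = 0) →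
      (∀ v, k' v = k v ∨ k' v = k v + 1) → (pr r k)⁻¹ * pr r k' ∈ E := by
  obtain ⟨B, hB, hB2⟩ := hr.fin
  refine ⟨(fun b : Fin N → A => (List.ofFn b).prod) '' {b | ∀ v, b v ∈ insert 1 B},
    (Set.Finite.pi' fun _ => hB.insert 1).image _, fun σ hσ k k' hk hk' hkk => ?_⟩
  refine ⟨fun v => (r v (k v))⁻¹ * r v (k' v), fun v => ?_, ?_⟩
  · rcases hkk v with h3 | h3
    · left
      show (r v (k v))⁻¹ * r v (k' v) = 1
      rw [h3, inv_mul_cancel]
    · right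
      show (r v (k v))⁻¹ * r v (k' v) ∈ B
      rw [h3]
      exact hB2 v (k v)
  · show (List.ofFn fun v => (r v (k v))⁻¹ * r v (k' v)).prod = (pr r k)⁻¹ * pr r k'
    rw [eq_inv_mul_iff_mul_eq]
    unfold pr
    rw [prod_ofFn_mul]
    · congr 1
      congr 1
      funext v
      rw [mul_inv_cancel_left]
    · intro i j hij
      by_cases hi : i ∈ σ
      · by_cases hj : j ∈ σ
        · exact ((hr.comm σ hσ j hj i hi hij.symm _ _).inv_right).mul_right (hr.comm σ hσ j hj i hi hij.symm _ _)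
        · rw [hk j hj, hr.zero]
          exact Commute.one_left _
      · rw [hk i hi, hk' i hi, hr.zero, inv_one, one_mul]
        exact Commute.one_right _

theorem sec_of_rays {A Γ : Type} [Group A] [Group Γ] {L : Finset (Finset (Fin N))} {r : Fin N → ℕ → A}
    (hr : Rays L r) {ψ : A → Γ}
    (h1 : ∀ S : Set A, S.Finite → ∃ E : Set Γ, E.Finite ∧ ∀ a b, a⁻¹ * b ∈ S → (ψ a)⁻¹ * ψ b ∈ E)
    (h2 : ∀ F : Set Γ, F.Finite → ∃ S : Set A, S.Finite ∧ ∀ a b, (ψ a)⁻¹ * ψ b ∈ F → a⁻¹ * b ∈ S) :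
    Sec L fun k => ψ (pr r k) := by
  refine ⟨?_, fun F hF => ?_⟩
  · obtain ⟨E, hE, hE2⟩ := rays_near hr
    obtain ⟨E', hE', hE2'⟩ := h1 E hE
    exact ⟨E', hE', fun σ hσ k k' hk hk' hkk => hE2' _ _ (hE2 σ hσ k k' hk hk' hkk)⟩
  · obtain ⟨S, hS, hS2⟩ := h2 F hF
    obtain ⟨R, hR⟩ := hr.div S hS
    exact ⟨R, fun σ hσ τ hτ hd k k' hk hk' hm => hR σ hσ τ hτ hd k k' hk hk' (hS2 _ _ hm)⟩

/-- the obstruction for a complex with rays in a group with a coarse embedding -/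
theorem vk2_of_coarse {A : Type} [Group A] {L : Finset (Finset (Fin N))} (hL : IsCx L)
    {r : Fin N → ℕ → A} (hr : Rays L r) {n : ℕ} (ha : CActs n A) : VK2 (jn L) (2 * n + 1) := by
  obtain ⟨Γ, _, ⟨M, _, _, _, _, hP, ι, hι, hι2⟩, ψ, h1, h2⟩ := ha
  exact vk2_of_sec hP hL (sec_of_rays hr h1 h2) ι hι hι2

end Pool.Agent.H815.CE
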