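import Pool.Agent.H815.TW.Sub
import Pool.Agent.H815.CE.Coarse

/-!
# The vanishing theorems for coarse embeddings
-/

set_option autoImplicit false
set_option linter.unusedSectionVars false

namespace Pool.Agent.H815.CE

open Pool.Agent.W907.SG Pool.Agent.R782.Bal Pool.Agent.W555.KS Pool.Agent.Y131.KS Pool.Agent.R703.MO
open Pool.Agent.H815.TW

theorem bd_of_tori {V : Type} [Finite V] {L : SimpleGraph V} {A : Type} [Group A] (T : Tori L A) {N : ℕ}
    (e : V × Bool ≃ Fin N) {n : ℕ} (ha : CActs n A) : Bd n (tr (oct L) e) :=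
  bd_of_vk2_jn (clF_cx _ e) (fun _ hσ => (tr_clique e).1 hσ) (vk2_of_coarse (clF_cx _ e) (rays_oct T e) ha)

theorem artin {V : Type} [Fintype V] [DecidableEq V] {L : SimpleGraph V} {A : Type} [Group A] (T : Tori L A)
    {n i : ℕ} (ha : CActs n A) (hi : n < 2 * i) :
    Acy L i ∧ ∀ _ : LinearOrder (V × Bool), L2Van (oct L) i := by
  obtain ⟨e⟩ : Nonempty (V × Bool ≃ Fin (Fintype.card (V × Bool))) := ⟨Fintype.equivFin _⟩
  have hb : Bd n (tr (oct L) e) := bd_of_tori T e ha
  exact ⟨acy_of_bd e hb hi, fun _ => van_of_bd (oct L) (dom_oct L) e hb hi⟩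

theorem artin_sub {V : Type} {L : SimpleGraph V} {A : Type} [Group A] (T : Tori L A) {n i : ℕ} (ha : CActs n A)
    (hi : n < 2 * i) (U : Set V) [Fintype U] [DecidableEq U] :
    Acy (L.induce U) i ∧ ∀ _ : LinearOrder (U × Bool), L2Van (oct (L.induce U)) i :=
  artin (T.sub U) ha hi

theorem bd_of_acts {V : Type} [Finite V] {G : SimpleGraph V} {N : ℕ} (e : V ≃ Fin N) (h : Dom G) {n : ℕ}
    (H : Subgroup (W G)) [H.FiniteIndex] (ha : CActs n H) : Bd n (tr G e) := by
  choose p hp1 hp2 using h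
  obtain ⟨r, hr⟩ := rays_sub e hp2 hp1 H
  exact bd_of_vk2_jn (clF_cx G e) (fun σ hσ => (tr_clique e).1 hσ) (vk2_of_coarse (clF_cx G e) hr ha)

/-- **The vanishing theorem for all special subgroups.** -/
theorem vanishing_sub {V : Type} [Fintype V] (G : SimpleGraph V) (hd : Dom G) {n i : ℕ} (H : Subgroup (W G))
    (hH : H.FiniteIndex) (ha : CActs n H) (hi : n < 2 * i) (A : Set V) [Fintype A] [LinearOrder A] :
    L2Van (G.induce A) i := by
  obtain ⟨e⟩ : Nonempty (V ≃ Fin (Fintype.card V)) := ⟨Fintype.equivFin V⟩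
  exact van_sub_of_bd G hd e (bd_of_acts e hd H ha) hi A

end Pool.Agent.H815.CE
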