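import Pool.Agent.H815.AR.Ker
import Pool.Agent.H815.CE.Main

/-!
# Artin groups and kernels of characters: coarse embeddings
-/

set_option autoImplicit false
set_option linter.unusedSectionVars false

namespace Pool.Agent.H815.AR.CE

open Pool.Agent.Helper741 Pool.Agent.H815.TW Pool.Agent.H815.AR
open Pool.Agent.H815.CE (CActs CActs.of_hom)

variable {B : Type} [Fintype B] [DecidableEq B] {M : CoxeterMatrix B}

/-- **The vanishing theorem for Artin groups.** -/
theorem artin_nerve (M : CoxeterMatrix B) (H : Subgroup (Artin M)) (hH : Big H)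
    {n i : ℕ} (ha : CActs n H) (hi : n < 2 * i)
    (U : Finset B) : AcyC (fun T => T ⊆ U ∧ Sph M T) i := by
  classical
  by_cases hU : U.Nonempty
  · have T := tori H hH
    obtain ⟨c, π, ⟨C⟩⟩ := exists_carrier (M := M) U hU
    have ha' : CActs n (H ⊓ (toCox M).ker : Subgroup (Artin M)) :=
      ha.of_hom (Subgroup.inclusion inf_le_left) (Subgroup.inclusion_injective _)
    refine acyC_of_acy C ?_
    exact (Pool.Agent.H815.CE.artin_sub T ha' hi {T : IS M | T.1 ⊆ U}).1
  · rw [Finset.not_nonempty_iff_eq_empty] at hU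
    subst hU
    intro z hz _
    have h0 : z = 0 := by
      funext σ
      by_contra h
      obtain ⟨⟨h1, _⟩, h2⟩ := hz σ h
      rw [Finset.subset_empty.1 h1, Finset.card_empty] at h2
      omega
    refine ⟨0, fun σ h => absurd rfl h, fun ρ => ?_⟩
    rw [h0]
    exact Finset.sum_eq_zero fun _ _ => rfl

/-- **The vanishing theorem for kernels.** -/
theorem artin_kernel (M : CoxeterMatrix B) {Q : Type} [Group Q] (χ : Artin M →* Q) (H : Subgroup (Artin M))
    (hH : BigK χ H) {n i : ℕ} (ha : CActs n H)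
    (hi : n < 2 * i) (J : Finset B) (hJ : PC M J)
    (hsp : ∀ x, toCox M x = 1 → ∃ k : ℕ, 0 < k ∧ ∃ y ∈ Subgroup.closure (Artin.gen M '' (J : Set B)), χ x ^ k = χ y)
    (U : Finset B) : AcyC (fun σ => Disjoint J σ ∧ σ ⊆ U ∧ Sph M (J ∪ σ)) i := by
  classical
  have ha' : CActs n (H ⊓ (toCox M).ker : Subgroup (Artin M)) :=
    ha.of_hom (Subgroup.inclusion inf_le_left) (Subgroup.inclusion_injective _)
  obtain ⟨T⟩ := toriK χ (sJ M J) (sJ_clique hJ) (fun T _ => by
    obtain ⟨k, hk, y, hy, h1⟩ := hsp _ (zz_ker T)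
    obtain ⟨m, hm, p, hp, h2⟩ := pow_mem_pz hJ hy
    exact ⟨k * m, Nat.mul_pos hk hm, p, hp, by rw [h2, pow_mul, h1, map_pow]⟩) H hH
  by_cases hne : Nonempty {T : lkS M (sJ M J) | T.1.1 ⊆ J ∪ U}
  · obtain ⟨c, π, hC⟩ := exists_carrier_link hJ U hne
    obtain ⟨C⟩ := hC
    refine acyC_of_acy C ?_
    exact (Pool.Agent.H815.CE.artin_sub T ha' hi {T | T.1.1 ⊆ J ∪ U}).1
  · intro z hz _
    have h0 : z = 0 := by
      funext σ
      by_contra h
      obtain ⟨⟨h1, h2, h3⟩, h4⟩ := hz σ h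
      have h5 : σ.Nonempty := by
        rw [← Finset.card_pos]; omega
      obtain ⟨C, hC1, hC2, _⟩ := exists_apex_link h1 h5 h3
      exact hne ⟨⟨⟨C, hC1⟩, hC2.trans (Finset.union_subset_union_right h2)⟩⟩
    refine ⟨0, fun σ h => absurd rfl h, fun ρ => ?_⟩
    rw [h0]
    exact Finset.sum_eq_zero fun _ _ => rfl

/-- **The links of the irreducible spherical subsets.** -/
theorem artin_kernel_irr (M : CoxeterMatrix B) (χ : Artin M →* Multiplicative ℤ) (H : Subgroup (Artin M))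
    (hH : BigK χ H) {n i : ℕ} (ha : CActs n H)
    (hi : n < 2 * i) (T₀ : Finset B) (hI : Irr M T₀) (hS : Sph M T₀)
    (hT₀ : ∀ s ∈ T₀, 0 < Multiplicative.toAdd (χ (Artin.gen M s))) :
    AcyC (fun σ => ¬ T₀ ⊆ σ ∧ Sph M (T₀ ∪ σ)) i := by
  classical
  have ha' : CActs n (H ⊓ (toCox M).ker : Subgroup (Artin M)) :=
    ha.of_hom (Subgroup.inclusion inf_le_left) (Subgroup.inclusion_injective _)
  obtain ⟨V, hV⟩ : ∃ V : IS M, V.1 = T₀ := ⟨⟨T₀, hI, hS⟩, rfl⟩
  subst hV
  have h0 := chi_zz χ V hT₀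
  have h1 : Multiplicative.toAdd (χ (zz V)) ≠ 0 := fun h => h0 (Multiplicative.toAdd.injective h)
  obtain ⟨T⟩ := toriK χ {V} (by rw [Finset.coe_singleton]; exact Set.pairwise_singleton _ _) (fun T _ => by
    refine ⟨(Multiplicative.toAdd (χ (zz V))).natAbs, Int.natAbs_pos.2 h1,
      pz V ^ ((Multiplicative.toAdd (χ (zz V))).sign * Multiplicative.toAdd (χ (zz T))),
      Subgroup.zpow_mem _ (Subgroup.subset_closure (Set.mem_image_of_mem pz (by simp))) _, ?_⟩
    rw [Subgroup.coe_zpow, map_zpow]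
    apply Multiplicative.toAdd.injective
    show Multiplicative.toAdd (χ (zz T) ^ _) = Multiplicative.toAdd (χ (zz V) ^ _)
    rw [toAdd_pow, toAdd_zpow, nsmul_eq_mul, smul_eq_mul, Int.natCast_natAbs, ← Int.sign_mul_self_eq_abs]
    ring) H hH
  by_cases hne : Nonempty (lkS M {V})
  · obtain ⟨c, π, hC⟩ := exists_carrier_irr V hne
    obtain ⟨C⟩ := hC
    exact acyC_of_acy C (Pool.Agent.H815.CE.artin T ha' hi).1
  · intro z hz _
    have h0 : z = 0 := by
      funext σ
      by_contra h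
      obtain ⟨⟨h1, h2⟩, h4⟩ := hz σ h
      have h5 : σ.Nonempty := by
        rw [← Finset.card_pos]; omega
      obtain ⟨a, ha⟩ := h5
      refine hne ?_
      by_cases h6 : σ ⊆ V.1
      · have hne2 : (sv M a) ≠ V := fun e => h1 (by
          rw [← e]
          exact Finset.singleton_subset_iff.2 ha)
        refine ⟨⟨sv M a, fun U hU => ?_⟩⟩
        rw [Finset.mem_singleton.1 hU]
        exact ⟨hne2.symm, Or.inr (Or.inl (Finset.singleton_subset_iff.2 (h6 ha)))⟩
      · obtain ⟨b, hb, hb'⟩ := Finset.not_subset.1 h6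
        obtain ⟨C, hC1, hC2, hC3, hC4⟩ := exists_comp (M := M) (Finset.mem_union_right V.1 hb)
        refine ⟨⟨⟨C, hC2, h2.mono hC1⟩, fun U hU => ?_⟩⟩
        rw [Finset.mem_singleton.1 hU]
        refine ⟨fun e => hb' (by rw [e]; exact hC3), ?_⟩
        rcases hC4 V.1 V.2.1 Finset.subset_union_left with h5 | h5
        · exact Or.inl h5
        · exact Or.inr (Or.inr h5)
    refine ⟨0, fun σ h => absurd rfl h, fun ρ => ?_⟩
    rw [h0]
    exact Finset.sum_eq_zero fun _ _ => rfl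

end Pool.Agent.H815.AR.CE
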